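import Mathlib

/-!
# Edge count versus maximum forcing number

For every graph `G` on `2n` vertices with a perfect matching, `e(G) ≥ n² / (n - F(G))`.
-/

namespace Pool.Agent.Results.MP_f5b231_co.EdgeBound

open Finset

variable {V : Type*} [Fintype V] [DecidableEq V]

/-- `S` is a forcing set of the perfect matching `M` of `G`: `S` is a subset of the edges of `M`,
and `M` is the only perfect matching of `G` containing `S`. -/
def IsForcingSet (G : SimpleGraph V) (M : G.Subgraph) (S : Finset (Sym2 V)) : Prop :=
  (S : Set (Sym2 V)) ⊆ M.edgeSet ∧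
    ∀ M' : G.Subgraph, M'.IsPerfectMatching → (S : Set (Sym2 V)) ⊆ M'.edgeSet → M' = M

/-- The forcing number of `M`: the minimum size of a forcing set. -/
noncomputable def forcingNumber (G : SimpleGraph V) (M : G.Subgraph) : ℕ :=
  sInf {k : ℕ | ∃ S : Finset (Sym2 V), IsForcingSet G M S ∧ S.card = k}

/-- The maximum forcing number of `G`. -/
noncomputable def maxForcingNumber (G : SimpleGraph V) : ℕ :=
  sSup {k : ℕ | ∃ M : G.Subgraph, M.IsPerfectMatching ∧ forcingNumber G M = k}

/-- Directed Caro-Wei bound: any finite family of out-neighbourhoods `D` (with `u ∉ D u`) has an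
acyclic set `T ⊆ W` of size at least the sum of `1 / (1 + d⁺(u))`. -/
lemma caro_wei {α : Type*} [DecidableEq α] (D : α → Finset α) (hD : ∀ u, u ∉ D u) :
    ∀ (k : ℕ) (W : Finset α), W.card = k → ∃ T : Finset α, T ⊆ W ∧
      (∑ u ∈ W, (1 : ℝ) / (1 + ((D u ∩ W).card : ℝ)) ≤ (T.card : ℝ)) ∧
      (∀ X : Finset α, X ⊆ T → X.Nonempty → ∃ u ∈ X, D u ∩ X = ∅) := by
  intro k
  induction k using Nat.strong_induction_on with
  | _ k ih =>
  intro W hW
  rcases W.eq_empty_or_nonempty with rfl | hne
  · refine ⟨∅, Finset.Subset.refl _, by simp, ?_⟩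
    intro X hX hXne
    rw [Finset.subset_empty] at hX
    subst hX
    exact absurd hXne (by simp)
  obtain ⟨v, hvW, hmin⟩ := Finset.exists_min_image W (fun u => (D u ∩ W).card) hne
  set R : Finset α := insert v (D v ∩ W) with hR
  have hRW : R ⊆ W := by
    intro x hx
    rw [hR, Finset.mem_insert] at hx
    rcases hx with rfl | hx
    · exact hvW
    · exact (Finset.mem_inter.mp hx).2
  have hRcard : R.card = (D v ∩ W).card + 1 := by
    rw [hR, Finset.card_insert_of_notMem]
    intro h
    exact hD v (Finset.mem_inter.mp h).1
  set W' := W \ R with hW'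
  have hlt : W'.card < k := by
    rw [← hW]
    apply Finset.card_lt_card
    refine ⟨Finset.sdiff_subset, fun h => ?_⟩
    have := h hvW
    rw [hW', Finset.mem_sdiff] at this
    exact this.2 (by rw [hR]; exact Finset.mem_insert_self _ _)
  obtain ⟨T', hT'W, hT'card, hT'ac⟩ := ih _ hlt W' rfl
  have hvT' : v ∉ T' := by
    intro h
    have := hT'W h
    rw [hW', Finset.mem_sdiff] at this
    exact this.2 (by rw [hR]; exact Finset.mem_insert_self _ _)
  refine ⟨insert v T', ?_, ?_, ?_⟩
  · intro x hx
    rw [Finset.mem_insert] at hx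
    rcases hx with rfl | hx
    · exact hvW
    · have := hT'W hx
      rw [hW', Finset.mem_sdiff] at this
      exact this.1
  · rw [Finset.card_insert_of_notMem hvT']
    have hsplit : ∑ u ∈ W, (1 : ℝ) / (1 + ((D u ∩ W).card : ℝ))
        = ∑ u ∈ W', (1 : ℝ) / (1 + ((D u ∩ W).card : ℝ))
          + ∑ u ∈ R, (1 : ℝ) / (1 + ((D u ∩ W).card : ℝ)) := by
      rw [hW', Finset.sum_sdiff hRW]
    have h1 : ∑ u ∈ W', (1 : ℝ) / (1 + ((D u ∩ W).card : ℝ))
        ≤ ∑ u ∈ W', (1 : ℝ) / (1 + ((D u ∩ W').card : ℝ)) := by
      apply Finset.sum_le_sum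
      intro u _
      apply one_div_le_one_div_of_le
      · positivity
      · have : (D u ∩ W').card ≤ (D u ∩ W).card :=
          Finset.card_le_card (Finset.inter_subset_inter_left Finset.sdiff_subset)
        have : ((D u ∩ W').card : ℝ) ≤ ((D u ∩ W).card : ℝ) := by exact_mod_cast this
        linarith
    have h2 : ∑ u ∈ R, (1 : ℝ) / (1 + ((D u ∩ W).card : ℝ)) ≤ 1 := by
      calc ∑ u ∈ R, (1 : ℝ) / (1 + ((D u ∩ W).card : ℝ))
          ≤ ∑ u ∈ R, (1 : ℝ) / (1 + ((D v ∩ W).card : ℝ)) := by
            apply Finset.sum_le_sum
            intro u hu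
            apply one_div_le_one_div_of_le
            · positivity
            · have := hmin u (hRW hu)
              have : ((D v ∩ W).card : ℝ) ≤ ((D u ∩ W).card : ℝ) := by exact_mod_cast this
              linarith
        _ = 1 := by
            rw [Finset.sum_const, hRcard, nsmul_eq_mul]
            push_cast
            have : (1 + ((D v ∩ W).card : ℝ)) ≠ 0 := by positivity
            field_simp
            ring
    push_cast
    linarith
  · intro X hX hXne
    by_cases hvX : v ∈ X
    · refine ⟨v, hvX, ?_⟩
      rw [Finset.eq_empty_iff_forall_notMem]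
      intro x hx
      rw [Finset.mem_inter] at hx
      have hxT := hX hx.2
      rw [Finset.mem_insert] at hxT
      rcases hxT with rfl | hxT
      · exact hD _ hx.1
      · have := hT'W hxT
        rw [hW', Finset.mem_sdiff] at this
        apply this.2
        rw [hR, Finset.mem_insert]
        exact Or.inr (Finset.mem_inter.mpr ⟨hx.1, this.1⟩)
    · apply hT'ac X _ hXne
      intro x hx
      have := hX hx
      rw [Finset.mem_insert] at this
      rcases this with rfl | h
      · exact absurd hx hvX
      · exact h

/-- The main estimate, for one perfect matching. -/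
lemma main_bound (G : SimpleGraph V) [DecidableRel G.Adj] (n : ℕ)
    (hV : Fintype.card V = 2 * n) (hn : 1 ≤ n) (M : G.Subgraph) (hM : M.IsPerfectMatching) :
    forcingNumber G M < n ∧
    (n : ℝ) ^ 2 ≤ (G.edgeFinset.card : ℝ) * ((n : ℝ) - (forcingNumber G M : ℝ)) := by
  classical
  have hM' : ∀ v, ∃! w, M.Adj v w := SimpleGraph.Subgraph.isPerfectMatching_iff.mp hM
  choose m hm hmu using hM'
  have hmm : ∀ v, m (m v) = v := fun v => (hmu (m v) v (M.adj_symm (hm v))).symm
  have hmne : ∀ v, m v ≠ v := by
    intro v h
    have := hm v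
    rw [h] at this
    exact (M.adj_sub this).ne rfl
  have hmG : ∀ v, G.Adj v (m v) := fun v => M.adj_sub (hm v)
  let e := Fintype.equivFin V
  let U : Finset V := Finset.univ.filter (fun v => G.degree v < G.degree (m v) ∨
    (G.degree v = G.degree (m v) ∧ e v < e (m v)))
  have hUdef : ∀ v, v ∈ U ↔ (G.degree v < G.degree (m v) ∨
    (G.degree v = G.degree (m v) ∧ e v < e (m v))) := by
    intro v
    simp [U]
  have hUx : ∀ v, v ∈ U ↔ m v ∉ U := by
    intro v
    rw [hUdef, hUdef, hmm]
    have hne : e v ≠ e (m v) := fun h => hmne v (e.injective h).symm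
    constructor
    · rintro (h | ⟨h1, h2⟩) (h' | ⟨h1', h2'⟩)
      · omega
      · omega
      · omega
      · exact absurd h2 (not_lt_of_gt h2')
    · intro h
      push Not at h
      rcases lt_trichotomy (G.degree v) (G.degree (m v)) with h1 | h1 | h1
      · exact Or.inl h1
      · exact Or.inr ⟨h1, lt_of_le_of_ne (h.2 h1.symm) hne⟩
      · exact absurd h1 (not_lt.mpr h.1)
  have hUdeg : ∀ u ∈ U, G.degree u ≤ G.degree (m u) := by
    intro u hu
    rcases (hUdef u).mp hu with h | h
    · exact h.le
    · exact h.1.le
  -- sums over all vertices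
  have hsum : ∀ f : V → ℝ, ∑ v, f v = ∑ u ∈ U, (f u + f (m u)) := by
    intro f
    rw [Finset.sum_add_distrib, ← Finset.sum_filter_add_sum_filter_not Finset.univ (fun v => v ∈ U)]
    congr 1
    · apply Finset.sum_congr _ (fun _ _ => rfl)
      ext v; simp
    · apply Finset.sum_bij' (fun v _ => m v) (fun v _ => m v)
      · intro v hv
        rw [Finset.mem_filter] at hv
        by_contra h
        exact hv.2 ((hUx v).mpr h)
      · intro v hv
        rw [Finset.mem_filter]
        exact ⟨Finset.mem_univ _, (hUx v).mp hv⟩
      · intro v _; exact hmm v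
      · intro v _; exact hmm v
      · intro v _; rw [hmm]
  have hUcard : U.card = n := by
    have h := hsum (fun _ => 1)
    simp only [Finset.sum_const, Finset.card_univ, hV, nsmul_eq_mul, mul_one] at h
    push_cast at h
    have : (U.card : ℝ) = n := by linarith
    exact_mod_cast this
  let rep : V → V := fun x => if x ∈ U then x else m x
  have hrepU : ∀ x, rep x ∈ U := by
    intro x
    by_cases hx : x ∈ U
    · simp [rep, hx]
    · simp only [rep, hx, if_false]
      by_contra h
      exact hx ((hUx x).mpr h)
  have hrep : ∀ x, rep x = x ∨ rep x = m x := by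
    intro x
    by_cases hx : x ∈ U
    · left; simp [rep, hx]
    · right; simp [rep, hx]
  let D : V → Finset V := fun u => ((G.neighborFinset u).image rep).erase u
  have hD : ∀ u, u ∉ D u := fun u => Finset.notMem_erase _ _
  have hDcard : ∀ u ∈ U, (D u).card + 1 ≤ G.degree u := by
    intro u hu
    have hmem : u ∈ (G.neighborFinset u).image rep := by
      rw [Finset.mem_image]
      refine ⟨m u, by rw [SimpleGraph.mem_neighborFinset]; exact hmG u, ?_⟩
      have : m u ∉ U := (hUx u).mp hu
      simp [rep, this, hmm]
    have h1 : (D u).card + 1 = ((G.neighborFinset u).image rep).card :=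
      Finset.card_erase_add_one hmem
    rw [h1]
    exact (Finset.card_image_le).trans (by rw [SimpleGraph.card_neighborFinset_eq_degree])
  obtain ⟨T, hTU, hTcard, hTac⟩ := caro_wei D hD U.card U rfl
  -- the forcing set
  let S : Finset (Sym2 V) := (U \ T).image (fun u => s(u, m u))
  have hSforce : IsForcingSet G M S := by
    refine ⟨?_, ?_⟩
    · intro x hx
      simp only [S, Finset.coe_image, Set.mem_image, Finset.mem_coe] at hx
      obtain ⟨u, _, rfl⟩ := hx
      exact hm u
    · intro M' hM' hSM'
      have hM'' : ∀ v, ∃! w, M'.Adj v w := SimpleGraph.Subgraph.isPerfectMatching_iff.mp hM'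
      choose q hq hqu using hM''
      -- the bad set
      have hX : (T.filter (fun u => q u ≠ m u)) = ∅ := by
        by_contra hne
        obtain ⟨u, huX, hDu⟩ := hTac _ (Finset.filter_subset _ _)
          (Finset.nonempty_iff_ne_empty.mpr hne)
        rw [Finset.mem_filter] at huX
        obtain ⟨huT, hqm⟩ := huX
        have huU := hTU huT
        have hadj : G.Adj u (q u) := M'.adj_sub (hq u)
        set w := rep (q u) with hw
        have hwU : w ∈ U := hrepU _
        have hwne : w ≠ u := by
          intro h
          rcases hrep (q u) with h1 | h1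
          · rw [← hw, h] at h1
            exact hadj.ne h1
          · rw [← hw, h] at h1
            apply hqm
            have h5 := hmm (q u)
            rw [← h1] at h5
            exact h5.symm
        have hwD : w ∈ D u := by
          simp only [D, Finset.mem_erase, Finset.mem_image]
          exact ⟨hwne, q u, by rw [SimpleGraph.mem_neighborFinset]; exact hadj, rfl⟩
        have hwX : w ∉ T.filter (fun u => q u ≠ m u) := by
          intro h
          have : w ∈ D u ∩ T.filter (fun u => q u ≠ m u) := Finset.mem_inter.mpr ⟨hwD, h⟩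
          rw [hDu] at this
          exact absurd this (Finset.notMem_empty _)
        have hqw : q w = m w := by
          by_cases hwT : w ∈ T
          · by_contra h
            exact hwX (Finset.mem_filter.mpr ⟨hwT, h⟩)
          · have : s(w, m w) ∈ M'.edgeSet := by
              apply hSM'
              simp only [S, Finset.coe_image, Set.mem_image, Finset.mem_coe]
              exact ⟨w, Finset.mem_sdiff.mpr ⟨hwU, hwT⟩, rfl⟩
            exact (hqu w (m w) this).symm
        -- so `q (q u) = m (q u)`
        have hqqu : q (q u) = u := (hqu (q u) u (M'.adj_symm (hq u))).symm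
        have hfin : q (q u) = m (q u) := by
          rcases hrep (q u) with h1 | h1
          · rw [← hw] at h1
            rw [← h1]; exact hqw
          · rw [← hw] at h1
            have h2 : m w = q u := by rw [h1, hmm]
            rw [h2] at hqw
            have h3 : M'.Adj w (q u) := hqw ▸ hq w
            have h4 : w = u := by
              rw [← hqqu]
              exact hqu (q u) w (M'.adj_symm h3)
            exact absurd h4 hwne
        apply hqm
        have h6 : u = m (q u) := by rw [← hfin, hqqu]
        have h5 := hmm (q u)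
        rw [← h6] at h5
        exact h5.symm
      have hqm : ∀ v, q v = m v := by
        have hU : ∀ v ∈ U, q v = m v := by
          intro v hv
          by_cases hvT : v ∈ T
          · by_contra h
            have : v ∈ T.filter (fun u => q u ≠ m u) := Finset.mem_filter.mpr ⟨hvT, h⟩
            rw [hX] at this
            exact absurd this (Finset.notMem_empty _)
          · have : s(v, m v) ∈ M'.edgeSet := by
              apply hSM'
              simp only [S, Finset.coe_image, Set.mem_image, Finset.mem_coe]
              exact ⟨v, Finset.mem_sdiff.mpr ⟨hv, hvT⟩, rfl⟩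
            exact (hqu v (m v) this).symm
        intro v
        by_cases hv : v ∈ U
        · exact hU v hv
        · have hmv : m v ∈ U := by
            by_contra h
            exact hv ((hUx v).mpr h)
          have h1 := hU (m v) hmv
          rw [hmm] at h1
          have h2 : M'.Adj (m v) v := by
            have h3 : M'.Adj (m v) (q (m v)) := hq (m v)
            rw [h1] at h3
            exact h3
          exact (hqu v (m v) (M'.adj_symm h2)).symm
      apply SimpleGraph.Subgraph.ext
      · rw [SimpleGraph.Subgraph.isSpanning_iff.mp hM'.2,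
          SimpleGraph.Subgraph.isSpanning_iff.mp hM.2]
      · ext a b
        constructor
        · intro h
          have : b = m a := by rw [← hqm]; exact hqu a b h
          rw [this]; exact hm a
        · intro h
          have : b = q a := by rw [hqm]; exact hmu a b h
          rw [this]; exact hq a
  have hfle : forcingNumber G M ≤ U.card - T.card := by
    calc forcingNumber G M ≤ S.card := Nat.sInf_le ⟨S, hSforce, rfl⟩
      _ ≤ (U \ T).card := Finset.card_image_le
      _ = U.card - T.card := Finset.card_sdiff_of_subset hTU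
  have hTle : T.card ≤ U.card := Finset.card_le_card hTU
  have hdegpos : ∀ v, 0 < G.degree v := by
    intro v
    rw [SimpleGraph.degree_pos_iff_exists_adj]
    exact ⟨m v, hmG v⟩
  have hesum : ∑ u ∈ U, ((G.degree u : ℝ) + (G.degree (m u) : ℝ)) = 2 * (G.edgeFinset.card : ℝ) := by
    rw [← hsum (fun v => (G.degree v : ℝ))]
    have := G.sum_degrees_eq_twice_card_edges
    exact_mod_cast this
  have hUpos : U.Nonempty := by
    rw [← Finset.card_pos]; omega
  have hepos : (0 : ℝ) < (G.edgeFinset.card : ℝ) := by
    have : (0 : ℝ) < ∑ u ∈ U, ((G.degree u : ℝ) + (G.degree (m u) : ℝ)) := by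
      apply Finset.sum_pos _ hUpos
      intro u _
      have := hdegpos u
      positivity
    rw [hesum] at this
    linarith
  have hT1 : (n : ℝ) ^ 2 / (G.edgeFinset.card : ℝ) ≤ (T.card : ℝ) := by
    have hCS := Finset.sq_sum_div_le_sum_sq_div U (fun _ => (1 : ℝ))
      (g := fun u => ((G.degree u : ℝ) + (G.degree (m u) : ℝ)) / 2)
      (by
        intro u _
        have := hdegpos u
        positivity)
    have h2 : ∑ u ∈ U, ((G.degree u : ℝ) + (G.degree (m u) : ℝ)) / 2
        = (G.edgeFinset.card : ℝ) := by
      rw [← Finset.sum_div, hesum]; ring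
    rw [h2] at hCS
    simp only [Finset.sum_const, nsmul_eq_mul, mul_one, one_pow] at hCS
    rw [hUcard] at hCS
    refine hCS.trans (le_trans ?_ hTcard)
    apply Finset.sum_le_sum
    intro u hu
    apply one_div_le_one_div_of_le
    · positivity
    · have h3 : (D u ∩ U).card + 1 ≤ G.degree u := by
        have := hDcard u hu
        have h4 : (D u ∩ U).card ≤ (D u).card := Finset.card_le_card Finset.inter_subset_left
        omega
      have h4 := hUdeg u hu
      have h3' : ((D u ∩ U).card : ℝ) + 1 ≤ (G.degree u : ℝ) := by exact_mod_cast h3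
      have h4' : (G.degree u : ℝ) ≤ (G.degree (m u) : ℝ) := by exact_mod_cast h4
      linarith
  have hTpos : 0 < T.card := by
    have : (0 : ℝ) < (n : ℝ) ^ 2 / (G.edgeFinset.card : ℝ) := by
      have : (0 : ℝ) < n := by exact_mod_cast hn
      positivity
    have : (0 : ℝ) < (T.card : ℝ) := lt_of_lt_of_le this hT1
    exact_mod_cast this
  refine ⟨by omega, ?_⟩
  have hf : (T.card : ℝ) ≤ (n : ℝ) - (forcingNumber G M : ℝ) := by
    have : T.card + forcingNumber G M ≤ n := by omega
    have : (T.card : ℝ) + (forcingNumber G M : ℝ) ≤ (n : ℝ) := by exact_mod_cast this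
    linarith
  rw [div_le_iff₀ hepos] at hT1
  nlinarith

/-- Every graph `G` on `2n` vertices with a perfect matching satisfies
`F(G) < n` and `e(G) ≥ n² / (n - F(G))`. -/
theorem result : ∀ (V : Type) [Fintype V] [DecidableEq V] (G : SimpleGraph V) [DecidableRel G.Adj]
    (n : ℕ), 1 ≤ n → Fintype.card V = 2 * n → (∃ M : G.Subgraph, M.IsPerfectMatching) →
    maxForcingNumber G < n ∧
    (n : ℝ) ^ 2 / ((n : ℝ) - (maxForcingNumber G : ℝ)) ≤ (G.edgeFinset.card : ℝ) := by
  intro V _ _ G _ n hn hV hex
  have hmem : maxForcingNumber G ∈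
      {k : ℕ | ∃ M : G.Subgraph, M.IsPerfectMatching ∧ forcingNumber G M = k} := by
    apply Nat.sSup_mem
    · obtain ⟨M, hM⟩ := hex
      exact ⟨_, M, hM, rfl⟩
    · refine ⟨n, ?_⟩
      rintro k ⟨M, hM, rfl⟩
      exact (main_bound G n hV hn M hM).1.le
  obtain ⟨M, hM, hMk⟩ := hmem
  obtain ⟨h1, h2⟩ := main_bound G n hV hn M hM
  rw [hMk] at h1 h2
  refine ⟨h1, ?_⟩
  have : (0 : ℝ) < (n : ℝ) - (maxForcingNumber G : ℝ) := by
    have : (maxForcingNumber G : ℝ) < (n : ℝ) := by exact_mod_cast h1
    linarith
  rw [div_le_iff₀ this]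
  exact h2

end Pool.Agent.Results.MP_f5b231_co.EdgeBound
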